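import Mathlib

open Set Topology TopologicalSpace MeasureTheory

namespace Pool.Agent.Semi

theorem exists_branch {H : List ℕ → Prop} (h0 : H []) (hs : ∀ s, H s → ∃ n, H (s ++ [n])) :
    ∃ y : ℕ → ℕ, ∀ k, H ((List.range k).map y) := by
  choose! n hn using hs
  let g : ℕ → {s : List ℕ // H s} := fun k =>
    Nat.rec ⟨[], h0⟩ (fun _ s => ⟨s.1 ++ [n s.1], hn s.1 s.2⟩) k
  let y : ℕ → ℕ := fun k => n (g k).1
  have hg : ∀ k, (g k).1 = (List.range k).map y := by
    intro k
    induction k with
    | zero => rfl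
    | succ k ih =>
      rw [List.range_succ, List.map_append, ← ih]
      rfl
  exact ⟨y, fun k => by rw [← hg]; exact (g k).2⟩

/-- cylinders of the Baire space -/
def Cyl (s : List ℕ) : Set (ℕ → ℕ) := {z | ∀ i, ∀ h : i < s.length, z i = s[i]}

theorem Cyl_nil : Cyl [] = univ := by
  ext z; simp [Cyl]

theorem Cyl_iUnion (s : List ℕ) : Cyl s ⊆ ⋃ n, Cyl (s ++ [n]) := by
  intro z hz
  rw [mem_iUnion]
  refine ⟨z s.length, ?_⟩
  intro i hi
  rw [List.length_append, List.length_singleton] at hi
  by_cases h : i < s.length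
  · rw [List.getElem_append_left h]
    exact hz i h
  · have : i = s.length := by omega
    subst this
    simp

theorem Cyl_range (y : ℕ → ℕ) (k : ℕ) :
    Cyl ((List.range k).map y) = {z | ∀ i < k, z i = y i} := by
  ext z
  simp only [Cyl, List.length_map, List.length_range, mem_ofPred_eq, List.getElem_map,
    List.getElem_range]

/-- An analytic set agrees with a closed set up to a meagre set. -/
theorem analytic_baire {X : Type*} [TopologicalSpace X] [SecondCountableTopology X] [T3Space X]
    [BaireSpace X] {S : Set X} (hS : AnalyticSet S) :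
    ∃ C M : Set X, IsClosed C ∧ IsMeagre M ∧ S ⊆ C ∪ M ∧ C ⊆ S ∪ M := by
  rw [AnalyticSet] at hS
  rcases hS with rfl | ⟨f, hf, rfl⟩
  · exact ⟨∅, ∅, isClosed_empty, IsMeagre.empty, by simp, by simp⟩
  let E : List ℕ → Set X := fun s => f '' Cyl s
  let U : List ℕ → Set X := fun s => ⋃₀ {V | IsOpen V ∧ IsMeagre (E s ∩ V)}
  have hUo : ∀ s, IsOpen (U s) := fun s => isOpen_sUnion (fun V hV => hV.1)
  have hUm : ∀ s, IsMeagre (E s ∩ U s) := by
    intro s
    obtain ⟨T, hTc, hTs, hTU⟩ := isOpen_sUnion_countable {V | IsOpen V ∧ IsMeagre (E s ∩ V)}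
      (fun V hV => hV.1)
    change IsMeagre (E s ∩ ⋃₀ {V | IsOpen V ∧ IsMeagre (E s ∩ V)})
    rw [← hTU, sUnion_eq_biUnion, inter_iUnion₂]
    exact isMeagre_biUnion hTc (fun V hV => (hTs hV).2)
  have hEU : ∀ s n, E (s ++ [n]) ⊆ E s := by
    intro s n
    apply image_mono
    intro z hz i hi
    have := hz i (by rw [List.length_append]; omega)
    rw [this, List.getElem_append_left hi]
  have hE : ∀ s, E s ⊆ ⋃ n, E (s ++ [n]) := by
    intro s
    rintro _ ⟨z, hz, rfl⟩
    have := Cyl_iUnion s hz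
    rw [mem_iUnion] at this ⊢
    obtain ⟨n, hn⟩ := this
    exact ⟨n, z, hn, rfl⟩
  have hUmax : ∀ s (O : Set X), IsOpen O → IsMeagre (E s ∩ O) → O ⊆ U s := by
    intro s O hO hm
    exact subset_sUnion_of_mem ⟨hO, hm⟩
  -- the bad closed nowhere dense sets
  let T : List ℕ → Set X := fun s => (U s)ᶜ ∩ ⋂ n, closure (U (s ++ [n]))
  have hTc : ∀ s, IsClosed (T s) := fun s =>
    (hUo s).isClosed_compl.inter (isClosed_iInter (fun n => isClosed_closure))
  have hTn : ∀ s, IsMeagre (T s) := by
    intro s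
    apply IsNowhereDense.isMeagre
    rw [(hTc s).isNowhereDense_iff]
    set O := interior (T s) with hO
    have hOs : O ⊆ T s := interior_subset
    have h1 : IsMeagre (E s ∩ O) := by
      have h2 : E s ∩ O ⊆ ⋃ n, (E (s ++ [n]) ∩ U (s ++ [n]) ∪ frontier (U (s ++ [n]))) := by
        rintro x ⟨hx1, hx2⟩
        have h3 := hE s hx1
        rw [mem_iUnion] at h3 ⊢
        obtain ⟨n, hn⟩ := h3
        refine ⟨n, ?_⟩
        by_cases h4 : x ∈ U (s ++ [n])
        · exact Or.inl ⟨hn, h4⟩
        · right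
          have h5 := (hOs hx2).2
          rw [mem_iInter] at h5
          rw [(hUo _).frontier_eq]
          exact ⟨h5 n, h4⟩
      refine IsMeagre.mono h2 (isMeagre_iUnion fun n => ?_)
      refine (hUm _).union ?_
      apply IsNowhereDense.isMeagre
      rw [isClosed_frontier.isNowhereDense_iff]
      rw [← frontier_compl]
      exact interior_frontier (hUo _).isClosed_compl
    have h6 := hUmax s O isOpen_interior h1
    rw [eq_empty_iff_forall_notMem]
    intro x hx
    exact (hOs hx).1 (h6 hx)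
  refine ⟨(U [])ᶜ, (⋃ s, E s ∩ U s) ∪ ⋃ s, T s, (hUo _).isClosed_compl,
    (isMeagre_iUnion hUm).union (isMeagre_iUnion hTn), ?_, ?_⟩
  · rintro x ⟨z, rfl⟩
    by_cases hx : f z ∈ U []
    · right; left
      rw [mem_iUnion]
      exact ⟨[], ⟨z, by rw [Cyl_nil]; trivial, rfl⟩, hx⟩
    · left; exact hx
  · intro x hx
    by_cases hM : x ∈ ⋃ s, T s
    · right; right; exact hM
    · left
      rw [mem_iUnion, not_exists] at hM
      obtain ⟨y, hy⟩ := exists_branch (H := fun s => x ∉ U s) hx (by
        intro s hs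
        by_contra hcon
        push Not at hcon
        exact hM s ⟨hs, mem_iInter.2 (fun n => subset_closure (hcon n))⟩)
      refine ⟨y, ?_⟩
      -- x is in the closure of each image of cylinder
      have hcl : ∀ k, x ∈ closure (E ((List.range k).map y)) := by
        intro k
        by_contra hcon
        apply hy k
        apply hUmax _ (closure (E ((List.range k).map y)))ᶜ isClosed_closure.isOpen_compl _ hcon
        have : E ((List.range k).map y) ∩ (closure (E ((List.range k).map y)))ᶜ = ∅ := by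
          rw [eq_empty_iff_forall_notMem]
          rintro z ⟨h1, h2⟩
          exact h2 (subset_closure h1)
        rw [this]
        exact IsMeagre.empty
      by_contra hne
      -- separate
      obtain ⟨V, hV, hVc, hxV⟩ : ∃ V ∈ 𝓝 (f y), IsClosed V ∧ x ∉ V := by
        have h1 : {x}ᶜ ∈ 𝓝 (f y) := isOpen_compl_singleton.mem_nhds hne
        obtain ⟨V, hV, hVc, hVs⟩ := exists_mem_nhds_isClosed_subset h1
        exact ⟨V, hV, hVc, fun h => hVs h rfl⟩
      have h2 : f ⁻¹' V ∈ 𝓝 y := hf.continuousAt.preimage_mem_nhds hV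
      obtain ⟨W, hW, hWo, hyW⟩ := mem_nhds_iff.1 h2
      obtain ⟨_, ⟨y', k, rfl⟩, hyk, hk'⟩ :=
        (PiNat.isTopologicalBasis_cylinders (fun _ : ℕ => ℕ)).exists_subset_of_mem_open hyW hWo
      have hk : PiNat.cylinder y k ⊆ W := by
        rwa [PiNat.mem_cylinder_iff_eq.1 hyk]
      apply hxV
      have h3 : E ((List.range k).map y) ⊆ V := by
        rintro _ ⟨z, hz, rfl⟩
        rw [Cyl_range] at hz
        exact hW (hk (PiNat.mem_cylinder_iff.2 hz))
      exact (closure_minimal h3 hVc) (hcl k)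

end Pool.Agent.Semi
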