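import Mathlib

open Set Topology TopologicalSpace

namespace Pool.Agent.Semi

/-- One half of the Kuratowski-Ulam theorem. -/
theorem kuratowski_ulam {X Y : Type*} [TopologicalSpace X] [TopologicalSpace Y]
    [SecondCountableTopology Y] {M : Set (X × Y)} (hM : IsMeagre M) :
    IsMeagre {x | ¬ IsMeagre {y | (x, y) ∈ M}} := by
  obtain ⟨S, hS, hSc, hMS⟩ := isMeagre_iff_countable_union_isNowhereDense.1 hM
  let K : Set (X × Y) → Set Y → Set X := fun t b => {x | ∀ y ∈ b, (x, y) ∈ closure t}
  have hKc : ∀ t b, IsClosed (K t b) := by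
    intro t b
    have : K t b = ⋂ y ∈ b, (fun x => (x, y)) ⁻¹' closure t := by
      ext x; simp [K]
    rw [this]
    apply isClosed_biInter
    intro y _
    exact isClosed_closure.preimage (by fun_prop)
  have hKn : ∀ t ∈ S, ∀ b ∈ countableBasis Y, IsMeagre (K t b) := by
    intro t ht b hb
    apply IsNowhereDense.isMeagre
    rw [(hKc t b).isNowhereDense_iff, eq_empty_iff_forall_notMem]
    intro x hx
    have hb1 : IsOpen b := isOpen_of_mem_countableBasis hb
    have hb2 : b.Nonempty := nonempty_of_mem_countableBasis hb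
    obtain ⟨y, hy⟩ := hb2
    have h1 : interior (K t b) ×ˢ b ⊆ interior (closure t) := by
      apply interior_maximal
      · rintro ⟨x', y'⟩ ⟨h1, h2⟩
        exact interior_subset h1 y' h2
      · exact isOpen_interior.prod hb1
    have h2 : interior (closure t) = ∅ := hS t ht
    have h3 := h1 (mk_mem_prod hx hy)
    rw [h2] at h3
    exact h3
  have hmain : {x | ¬ IsMeagre {y | (x, y) ∈ M}} ⊆ ⋃ t ∈ S, ⋃ b ∈ countableBasis Y, K t b := by
    intro x hx
    by_contra hcon
    apply hx
    simp only [mem_iUnion, not_exists] at hcon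
    have h1 : {y | (x, y) ∈ M} ⊆ ⋃ t ∈ S, {y | (x, y) ∈ closure t} := by
      intro y hy
      obtain ⟨t, ht, hyt⟩ := hMS hy
      exact mem_biUnion ht (subset_closure hyt)
    refine IsMeagre.mono h1 (isMeagre_biUnion hSc ?_)
    intro t ht
    apply IsNowhereDense.isMeagre
    have hcl : IsClosed {y | (x, y) ∈ closure t} :=
      isClosed_closure.preimage (by fun_prop : Continuous fun y => (x, y))
    rw [hcl.isNowhereDense_iff, eq_empty_iff_forall_notMem]
    intro y hy
    obtain ⟨b, hb, hyb, hbs⟩ := (isBasis_countableBasis Y).exists_subset_of_mem_open hy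
      isOpen_interior
    have h2 : interior {y | (x, y) ∈ closure t} ⊆ {y | (x, y) ∈ closure t} := interior_subset
    exact hcon t ht b hb (fun y' hy' => h2 (hbs hy'))
  refine IsMeagre.mono hmain ?_
  apply isMeagre_biUnion hSc
  intro t ht
  exact isMeagre_biUnion (countable_countableBasis Y) (fun b hb => hKn t ht b hb)

end Pool.Agent.Semi
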