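import Mathlib

open Set Topology TopologicalSpace

namespace Pool.Agent.Semi

theorem dense_pair {J : Type} [Fintype J] [DecidableEq J] {F : Set (ℝ × ℝ)}
    (hn : interior F = ∅) {s s' : J} (h : s ≠ s') : Dense {v : J → ℝ | (v s, v s') ∉ F} := by
  rw [Metric.dense_iff]
  intro v r hr
  have hd : Dense Fᶜ := interior_eq_empty_iff_dense_compl.1 hn
  obtain ⟨p, hp1, hp2⟩ := Metric.dense_iff.1 hd (v s, v s') r hr
  refine ⟨Function.update (Function.update v s p.1) s' p.2, ?_, ?_⟩
  · rw [Metric.mem_ball, Prod.dist_eq, max_lt_iff] at hp1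
    rw [Metric.mem_ball, dist_pi_lt_iff hr]
    intro j
    by_cases hj : j = s'
    · subst hj
      rw [Function.update_self]
      exact hp1.2
    · rw [Function.update_of_ne hj]
      by_cases hj2 : j = s
      · subst hj2
        rw [Function.update_self]
        exact hp1.1
      · rw [Function.update_of_ne hj2, dist_self]
        exact hr
  · change (Function.update (Function.update v s p.1) s' p.2 s,
      Function.update (Function.update v s p.1) s' p.2 s') ∉ F
    rw [Function.update_self, Function.update_of_ne h, Function.update_self]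
    exact hp2

/-- uniform continuity on the Cantor space in terms of initial segments -/
theorem cantor_unif (g : C(ℕ → Bool, ℝ)) {ε : ℝ} (hε : 0 < ε) (m : ℕ) :
    ∃ N, m ≤ N ∧ ∀ a b : ℕ → Bool, (∀ i < N, a i = b i) → dist (g a) (g b) < ε := by
  have h1 : ∀ a : ℕ → Bool, ∃ n, ∀ b ∈ PiNat.cylinder a n, dist (g b) (g a) < ε / 2 := by
    intro a
    have h2 : g ⁻¹' Metric.ball (g a) (ε / 2) ∈ 𝓝 a :=
      g.continuous.continuousAt.preimage_mem_nhds (Metric.ball_mem_nhds _ (by positivity))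
    obtain ⟨W, hW, hWo, haW⟩ := mem_nhds_iff.1 h2
    obtain ⟨_, ⟨a', k, rfl⟩, hak, hk'⟩ :=
      (PiNat.isTopologicalBasis_cylinders (fun _ : ℕ => Bool)).exists_subset_of_mem_open haW hWo
    refine ⟨k, ?_⟩
    intro b hb
    rw [PiNat.mem_cylinder_iff_eq.1 hak] at hb
    exact hW (hk' hb)
  choose n hn using h1
  obtain ⟨t, ht⟩ := (isCompact_univ (X := ℕ → Bool)).elim_finite_subcover
    (fun a => PiNat.cylinder a (n a)) (fun a => PiNat.isOpen_cylinder _ a (n a))
    (fun a _ => mem_iUnion.2 ⟨a, PiNat.self_mem_cylinder a (n a)⟩)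
  refine ⟨max m (t.sup n), le_max_left _ _, ?_⟩
  intro a b hab
  obtain ⟨c, hc, hac⟩ := mem_iUnion₂.1 (ht (mem_univ a))
  have hcn : n c ≤ t.sup n := Finset.le_sup hc
  have hbc : b ∈ PiNat.cylinder c (n c) := by
    rw [PiNat.mem_cylinder_iff] at hac ⊢
    intro i hi
    rw [← hab i (lt_of_lt_of_le hi (hcn.trans (le_max_right _ _)))]
    exact hac i hi
  have e1 := hn c a hac
  have e2 := hn c b hbc
  calc dist (g a) (g b) ≤ dist (g a) (g c) + dist (g c) (g b) := dist_triangle _ _ _
    _ < ε / 2 + ε / 2 := by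
        rw [dist_comm (g c)]
        exact add_lt_add e1 e2
    _ = ε := by ring

/-- the compact cylinder given by a finite sequence -/
def FC {m : ℕ} (s : Fin m → Bool) : Set (ℕ → Bool) := {a | ∀ i : Fin m, a i = s i}

theorem FC_closed {m : ℕ} (s : Fin m → Bool) : IsClosed (FC s) := by
  have : FC s = ⋂ i : Fin m, (fun a : ℕ → Bool => a i) ⁻¹' {s i} := by
    ext a; simp [FC]
  rw [this]
  apply isClosed_iInter
  intro i
  exact (isClosed_discrete _).preimage (continuous_apply _)

theorem good_open {F : Set (ℝ × ℝ)} (hF : IsClosed F) {m : ℕ} (s s' : Fin m → Bool) :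
    IsOpen {g : C(ℕ → Bool, ℝ) | ∀ a ∈ FC s, ∀ b ∈ FC s', (g a, g b) ∉ F} := by
  have h1 : IsOpen {f : C((ℕ → Bool) × (ℕ → Bool), ℝ × ℝ) | MapsTo f (FC s ×ˢ FC s') Fᶜ} :=
    ContinuousMap.isOpen_setOfPred_mapsTo
      ((FC_closed s).isCompact.prod (FC_closed s').isCompact) hF.isOpen_compl
  have h2 : Continuous (fun g : C(ℕ → Bool, ℝ) => g.prodMap g) := by
    apply ContinuousMap.continuous_of_continuous_uncurry
    have e1 : Continuous (fun p : C(ℕ → Bool, ℝ) × ((ℕ → Bool) × (ℕ → Bool)) =>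
        (p.1 p.2.1, p.1 p.2.2)) := by
      fun_prop
    exact e1
  have h3 := h1.preimage h2
  convert h3 using 1
  ext g
  constructor
  · intro h x hx
    exact h x.1 hx.1 x.2 hx.2
  · intro h a ha b hb
    exact h (mk_mem_prod ha hb)

theorem good_dense {F : Set (ℝ × ℝ)} (hF : IsClosed F) (hn : interior F = ∅) {m : ℕ}
    {s s' : Fin m → Bool} (hss : s ≠ s') :
    Dense {g : C(ℕ → Bool, ℝ) | ∀ a ∈ FC s, ∀ b ∈ FC s', (g a, g b) ∉ F} := by
  rw [Metric.dense_iff]
  intro g ε hε
  obtain ⟨N, hmN, hN⟩ := cantor_unif g (half_pos hε) m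
  -- finite dimensional generic choice
  have hD : Dense (⋂ p : {p : (Fin N → Bool) × (Fin N → Bool) // p.1 ≠ p.2},
      {v : (Fin N → Bool) → ℝ | (v p.1.1, v p.1.2) ∉ F}) := by
    apply dense_iInter_of_isOpen
    · rintro ⟨p, hp⟩
      exact hF.isOpen_compl.preimage (by fun_prop :
        Continuous fun v : (Fin N → Bool) → ℝ => (v p.1, v p.2))
    · rintro ⟨p, hp⟩
      exact dense_pair hn hp
  let ext : (Fin N → Bool) → (ℕ → Bool) := fun s i => if h : i < N then s ⟨i, h⟩ else false
  obtain ⟨v, hv1, hv2⟩ := Metric.dense_iff.1 hD (fun s => g (ext s)) (ε / 4) (by positivity)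
  let res : (ℕ → Bool) → (Fin N → Bool) := fun a i => a i
  have hres : Continuous res := by fun_prop
  let g' : C(ℕ → Bool, ℝ) := ⟨fun a => v (res a), continuous_of_discreteTopology.comp hres⟩
  refine ⟨g', ?_, ?_⟩
  · rw [Metric.mem_ball]
    have h34 : dist g' g ≤ ε * (3 / 4) := by
      rw [ContinuousMap.dist_le (by positivity)]
      intro a
      have h1 : dist (v (res a)) (g (ext (res a))) < ε / 4 := by
        rw [Metric.mem_ball, dist_pi_lt_iff (by positivity)] at hv1
        exact hv1 (res a)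
      have h2 : dist (g (ext (res a))) (g a) < ε / 2 := by
        apply hN
        intro i hi
        simp [ext, res, hi]
      calc dist (g' a) (g a) ≤ dist (v (res a)) (g (ext (res a))) + dist (g (ext (res a))) (g a) :=
            dist_triangle _ _ _
        _ ≤ ε / 4 + ε / 2 := add_le_add h1.le h2.le
        _ = ε * (3 / 4) := by ring
    linarith
  · intro a ha b hb
    have hab : res a ≠ res b := by
      intro h
      apply hss
      funext i
      have h1 := congrFun h ⟨i, lt_of_lt_of_le i.2 hmN⟩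
      rw [← ha i, ← hb i]
      exact h1
    have := mem_iInter.1 hv2 ⟨(res a, res b), hab⟩
    exact this

/-- Mycielski's theorem for a meagre relation on the reals. -/
theorem mycielski {M : Set (ℝ × ℝ)} (hM : IsMeagre M) :
    ∃ g : (ℕ → Bool) → ℝ, (∀ a, 0 < g a) ∧ ∀ a b, a ≠ b → (g a, g b) ∉ M := by
  obtain ⟨S, hS, hSc, hMS⟩ := isMeagre_iff_countable_union_isNowhereDense.1 hM
  have : Countable S := hSc.to_subtype
  have hD : Dense (⋂ q : S × (Σ m : ℕ, {p : (Fin m → Bool) × (Fin m → Bool) // p.1 ≠ p.2}),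
      {g : C(ℕ → Bool, ℝ) | ∀ a ∈ FC q.2.2.1.1, ∀ b ∈ FC q.2.2.1.2,
        (g a, g b) ∉ closure (q.1 : Set (ℝ × ℝ))}) := by
    apply dense_iInter_of_isOpen
    · intro q
      exact good_open isClosed_closure _ _
    · rintro ⟨t, m, p, hp⟩
      exact good_dense isClosed_closure (hS t t.2) hp
  have hO : IsOpen {g : C(ℕ → Bool, ℝ) | MapsTo g univ (Ioi 0)} :=
    ContinuousMap.isOpen_setOfPred_mapsTo isCompact_univ isOpen_Ioi
  obtain ⟨g, hg1, hg2⟩ := hD.inter_open_nonempty _ hO
    ⟨ContinuousMap.const _ 1, fun a _ => by simp⟩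
  refine ⟨g, fun a => hg1 (mem_univ a), ?_⟩
  intro a b hab hM'
  obtain ⟨t, ht, habt⟩ := hMS hM'
  obtain ⟨i, hi⟩ := Function.ne_iff.1 hab
  have h1 := mem_iInter.1 hg2 (⟨t, ht⟩, ⟨i + 1, ((fun j => a j), (fun j => b j)), fun h => by
    have := congrFun h ⟨i, Nat.lt_succ_self i⟩
    exact hi this⟩)
  exact h1 a (fun j => rfl) b (fun j => rfl) (subset_closure habt)

end Pool.Agent.Semi
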