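import Pool.Agent.Helper3_Semi.BP
import Pool.Agent.Helper3_Semi.KU
import Pool.Agent.Helper3_Semi.Myc

open Set Topology TopologicalSpace MeasureTheory

namespace Pool.Agent.Semi

variable {ι : Type*} {c : ℝ → ι}

theorem scale_nat (hadd : ∀ x y, c x = c y → c (x + y) = c x) (x : ℝ) (n : ℕ) :
    c (((n + 1 : ℕ) : ℝ) * x) = c x := by
  induction n with
  | zero => simp
  | succ n ih =>
    have e : ((n + 1 + 1 : ℕ) : ℝ) * x = ((n + 1 : ℕ) : ℝ) * x + x := by push_cast; ring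
    rw [e, hadd _ _ ih, ih]

theorem scale_rat (hadd : ∀ x y, c x = c y → c (x + y) = c x) (x : ℝ) (q : ℚ) (hq : 0 < q) :
    c ((q : ℝ) * x) = c x := by
  obtain ⟨n, hn⟩ : ∃ n : ℕ, q.den = n + 1 := ⟨q.den - 1, by have := q.den_pos; omega⟩
  obtain ⟨m, hm⟩ : ∃ m : ℕ, q.num = ((m + 1 : ℕ) : ℤ) := by
    have h1 : 0 < q.num := Rat.num_pos.2 hq
    exact ⟨q.num.toNat - 1, by omega⟩
  have e : (q : ℝ) = ((m + 1 : ℕ) : ℝ) / ((n + 1 : ℕ) : ℝ) := by
    rw [Rat.cast_def, hn, hm]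
    push_cast
    ring
  have hn0 : ((n + 1 : ℕ) : ℝ) ≠ 0 := by positivity
  have h1 : c (((n + 1 : ℕ) : ℝ) * (x / ((n + 1 : ℕ) : ℝ))) = c (x / ((n + 1 : ℕ) : ℝ)) :=
    scale_nat hadd _ n
  rw [mul_div_cancel₀ _ hn0] at h1
  have h2 : (q : ℝ) * x = ((m + 1 : ℕ) : ℝ) * (x / ((n + 1 : ℕ) : ℝ)) := by
    rw [e]; ring
  rw [h2, scale_nat hadd, ← h1]

theorem closed_meagre {X : Type*} [TopologicalSpace X] {C O : Set X} (hC : IsClosed C)
    (h : ∀ x ∈ O, x ∉ interior C) : IsMeagre (C ∩ O) := by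
  apply IsMeagre.mono (t := C ∩ O) (s := frontier C)
  · rintro x ⟨h1, h2⟩
    exact ⟨subset_closure h1, h x h2⟩
  · apply IsNowhereDense.isMeagre
    rw [isClosed_frontier.isNowhereDense_iff]
    exact interior_frontier hC

/-- A piece that is not meagre on the positive half-line contains it. -/
theorem nonmeagre_class (hadd : ∀ x y, c x = c y → c (x + y) = c x) (i : ι)
    (hA : AnalyticSet (c ⁻¹' {i})) (hm : ¬ IsMeagre (c ⁻¹' {i} ∩ Ioi 0)) :
    ∀ x : ℝ, 0 < x → c x = i := by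
  obtain ⟨C, M, hC, hM, h1, h2⟩ := analytic_baire hA
  obtain ⟨z, hz0, hz⟩ : ∃ z ∈ Ioi (0 : ℝ), z ∈ interior C := by
    by_contra hcon
    push Not at hcon
    apply hm
    apply IsMeagre.mono (s := (C ∩ Ioi 0) ∪ M)
    · rintro x ⟨hx, hx0⟩
      rcases h1 hx with h | h
      · exact Or.inl ⟨h, hx0⟩
      · exact Or.inr h
    · exact (closed_meagre hC hcon).union hM
  have hO : IsOpen (interior C ∩ Ioi 0) := isOpen_interior.inter isOpen_Ioi
  obtain ⟨r, hr, hball⟩ := Metric.isOpen_iff.1 hO z ⟨hz, hz0⟩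
  rw [Real.ball_eq_Ioo] at hball
  have hCs : ∀ y ∈ Ioo (z - r) (z + r), y ∉ M → c y = i := by
    intro y hy hyM
    rcases h2 (interior_subset (hball hy).1) with h | h
    · exact h
    · exact absurd h hyM
  -- sums
  have hsum : ∀ w ∈ Ioo (2 * (z - r)) (2 * (z + r)), c w = i := by
    intro w hw
    have hM' : IsMeagre (M ∪ (fun y => w - y) ⁻¹' M) := by
      apply hM.union
      exact hM.preimage_of_isOpenMap (by fun_prop) (Homeomorph.subLeft w).isOpenMap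
    have hne : (Ioo (z - r) (z + r) ∩ Ioo (w - (z + r)) (w - (z - r))).Nonempty := by
      refine ⟨w / 2, ⟨?_, ?_⟩, ⟨?_, ?_⟩⟩ <;> linarith [hw.1, hw.2]
    have hnm : ¬ IsMeagre (Ioo (z - r) (z + r) ∩ Ioo (w - (z + r)) (w - (z - r))) :=
      not_isMeagre_of_isOpen (isOpen_Ioo.inter isOpen_Ioo) hne
    obtain ⟨y, ⟨hy1, hy2⟩, hy3⟩ : ∃ y ∈ Ioo (z - r) (z + r) ∩ Ioo (w - (z + r)) (w - (z - r)),
        y ∉ M ∪ (fun y => w - y) ⁻¹' M := by
      by_contra hcon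
      push Not at hcon
      exact hnm (IsMeagre.mono (fun y hy => hcon y hy) hM')
    have e1 : c y = i := hCs y hy1 (fun h => hy3 (Or.inl h))
    have e2 : c (w - y) = i := hCs (w - y) ⟨by linarith [hy2.2], by linarith [hy2.1]⟩
      (fun h => hy3 (Or.inr h))
    have e3 := hadd y (w - y) (by rw [e1, e2])
    rw [add_sub_cancel] at e3
    rw [e3, e1]
  intro x hx
  have hzr : 0 ≤ z - r := by
    by_contra hcon
    push Not at hcon
    have hzr2 : z - r < 0 := hcon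
    have hmem : (0 : ℝ) ∈ Ioo (z - r) (z + r) := by
      refine ⟨hzr2, ?_⟩
      have : (0 : ℝ) < z := hz0
      linarith
    exact lt_irrefl (0 : ℝ) (mem_Ioi.1 (hball hmem).2)
  obtain ⟨q, hq1, hq2⟩ := exists_rat_btwn (show 2 * (z - r) / x < 2 * (z + r) / x from by
    apply div_lt_div_of_pos_right _ hx
    linarith)
  have hq0 : (0 : ℚ) < q := by
    have : (0 : ℝ) < q := lt_of_le_of_lt (by positivity) hq1
    exact_mod_cast this
  rw [← scale_rat hadd x q hq0]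
  apply hsum
  rw [div_lt_iff₀ hx] at hq1
  rw [lt_div_iff₀ hx] at hq2
  exact ⟨hq1, hq2⟩

/-- The dichotomy on the positive half-line. -/
theorem core (hadd : ∀ x y, c x = c y → c (x + y) = c x)
    (hE : AnalyticSet {p : ℝ × ℝ | c p.1 = c p.2}) :
    (∃ i, ∀ x : ℝ, 0 < x → c x = i) ∨
      ∃ g : (ℕ → Bool) → ℝ, ∀ a b, a ≠ b → c (g a) ≠ c (g b) := by
  by_cases h : ∃ i, ∀ x : ℝ, 0 < x → c x = i
  · exact Or.inl h
  right
  have hsec : ∀ x : ℝ, IsMeagre ({y | c x = c y} ∩ Ioi 0) := by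
    intro x
    by_contra hm
    apply h
    refine ⟨c x, ?_⟩
    have e : {y | c x = c y} = c ⁻¹' {c x} := by
      ext y; exact eq_comm
    apply nonmeagre_class hadd (c x)
    · rw [← e]
      exact hE.preimage (f := fun y : ℝ => (x, y)) (by fun_prop)
    · rw [← e]; exact hm
  obtain ⟨C, M, hC, hM, h1, h2⟩ := analytic_baire hE
  have hint : ∀ p ∈ (Ioi (0 : ℝ) ×ˢ Ioi (0 : ℝ)), p ∉ interior C := by
    intro p hp hpC
    have hO : IsOpen (interior C ∩ (Ioi (0 : ℝ) ×ˢ Ioi (0 : ℝ))) :=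
      isOpen_interior.inter (isOpen_Ioi.prod isOpen_Ioi)
    obtain ⟨I, J, hI, hJ, hpI, hpJ, hIJ⟩ := isOpen_prod_iff.1 hO p.1 p.2 ⟨hpC, hp⟩
    have hku := kuratowski_ulam hM
    have hIm : ¬ IsMeagre I := not_isMeagre_of_isOpen hI ⟨_, hpI⟩
    obtain ⟨x, hxI, hx⟩ : ∃ x ∈ I, x ∉ {x | ¬ IsMeagre {y | (x, y) ∈ M}} := by
      by_contra hcon
      push Not at hcon
      exact hIm (IsMeagre.mono (fun y hy => hcon y hy) hku)
    have hx' : IsMeagre {y | (x, y) ∈ M} := by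
      by_contra h3
      exact hx h3
    have hJm : ¬ IsMeagre J := not_isMeagre_of_isOpen hJ ⟨_, hpJ⟩
    apply hJm
    apply IsMeagre.mono _ ((hsec x).union hx')
    intro y hy
    have h4 := hIJ (mk_mem_prod hxI hy)
    rcases h2 (interior_subset h4.1) with h5 | h5
    · exact Or.inl ⟨h5, h4.2.2⟩
    · exact Or.inr h5
  have hEm : IsMeagre ({p : ℝ × ℝ | c p.1 = c p.2} ∩ (Ioi (0 : ℝ) ×ˢ Ioi (0 : ℝ))) := by
    apply IsMeagre.mono (s := (C ∩ (Ioi (0 : ℝ) ×ˢ Ioi (0 : ℝ))) ∪ M)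
    · rintro p ⟨hp1, hp2⟩
      rcases h1 hp1 with h3 | h3
      · exact Or.inl ⟨h3, hp2⟩
      · exact Or.inr h3
    · exact (closed_meagre hC hint).union hM
  obtain ⟨g, hg0, hg⟩ := mycielski hEm
  refine ⟨g, fun a b hab hc => hg a b hab ⟨hc, mk_mem_prod (hg0 a) (hg0 b)⟩⟩

end Pool.Agent.Semi
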